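import Pool.Agent.Helper36.TC.Defs

/-! # Module Uniq of MP_9e79c9_gt: if Birkhoff orthogonality is symmetric and `d ≥ 3`, support
functionals are unique -/

set_option autoImplicit false
set_option linter.unusedSectionVars false

open MeasureTheory Set Metric Module
open scoped Topology

namespace TC

variable {V : Type*} [NormedAddCommGroup V] [NormedSpace ℝ V]

/-- a functional attains its norm -/
theorem uniq_attain [FiniteDimensional ℝ V] {G : V →L[ℝ] ℝ} (hG : 0 < ‖G‖) :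
    ∃ v : V, ‖v‖ = 1 ∧ G v = ‖G‖ := by
  have hc : IsCompact (closedBall (0 : V) 1) := isCompact_closedBall 0 1
  obtain ⟨v, hv, hmax⟩ := hc.exists_isMaxOn ⟨0, by simp⟩
    (f := fun z : V => |G z|) (by fun_prop)
  rw [mem_closedBall_zero_iff] at hv
  have h1 : ‖G‖ ≤ |G v| := by
    refine G.opNorm_le_bound (abs_nonneg _) fun z => ?_
    rcases eq_or_ne z 0 with rfl | hz
    · simp
    have hz0 : 0 < ‖z‖ := norm_pos_iff.2 hz
    have hz1 : ‖z‖⁻¹ • z ∈ closedBall (0 : V) 1 := by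
      rw [mem_closedBall_zero_iff, norm_smul, norm_inv, norm_norm, inv_mul_cancel₀ hz0.ne']
    have h2 : |G (‖z‖⁻¹ • z)| ≤ |G v| := hmax hz1
    rw [map_smul, smul_eq_mul, abs_mul, abs_of_pos (inv_pos.2 hz0)] at h2
    rw [Real.norm_eq_abs]
    rw [inv_mul_le_iff₀ hz0] at h2
    linarith
  have h2 : |G v| ≤ ‖G‖ * ‖v‖ := by
    have := G.le_opNorm v
    rwa [Real.norm_eq_abs] at this
  have h3 : ‖v‖ = 1 := by
    apply le_antisymm hv
    by_contra h
    push Not at h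
    nlinarith
  have h4 : |G v| = ‖G‖ := by
    rw [h3, mul_one] at h2
    exact le_antisymm h2 h1
  rcases le_total 0 (G v) with h | h
  · exact ⟨v, h3, by rw [← h4, abs_of_nonneg h]⟩
  · exact ⟨-v, by rw [norm_neg, h3], by rw [map_neg, ← h4, abs_of_nonpos h]⟩

/-- at a norming vector, the kernel is orthogonal -/
theorem uniq_perp {G : V →L[ℝ] ℝ} (hG : 0 < ‖G‖) {w z : V} (hw : ‖w‖ = 1) (hGw : G w = ‖G‖)
    (hz : G z = 0) : Perp w z := by
  intro t
  have h1 : G (w + t • z) ≤ ‖G‖ * ‖w + t • z‖ := by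
    have := G.le_opNorm (w + t • z)
    exact (le_abs_self _).trans (by rwa [Real.norm_eq_abs] at this)
  rw [map_add, map_smul, hz, hGw, smul_zero, add_zero] at h1
  rw [hw]
  by_contra h
  push Not at h
  nlinarith

/-- a direction in the kernel outside the line of `x`, with a functional -/
theorem uniq_dir [FiniteDimensional ℝ V] (hd : 3 ≤ finrank ℝ V) (k : V →L[ℝ] ℝ) (x : V) :
    ∃ (y : V) (h : V →L[ℝ] ℝ), k y = 0 ∧ h x = 0 ∧ h y = 1 := by
  have h1 := LinearMap.finrank_range_add_finrank_ker (k : V →ₗ[ℝ] ℝ)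
  have h2 : finrank ℝ (LinearMap.range (k : V →ₗ[ℝ] ℝ)) ≤ 1 := by
    have := Submodule.finrank_le (LinearMap.range (k : V →ₗ[ℝ] ℝ))
    simpa using this
  have h3 : finrank ℝ (Submodule.span ℝ {x}) ≤ 1 := by
    have := finrank_span_le_card (R := ℝ) ({x} : Set V)
    simpa using this
  have h4 : ¬ LinearMap.ker (k : V →ₗ[ℝ] ℝ) ≤ Submodule.span ℝ {x} := by
    intro hle
    have := Submodule.finrank_mono hle
    omega
  obtain ⟨y, hy, hyx⟩ := SetLike.not_le_iff_exists.1 h4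
  obtain ⟨F, hF, hFm⟩ := Submodule.exists_dual_map_eq_bot_of_notMem hyx inferInstance
  have hFx : F x = 0 := by
    have : F x ∈ (Submodule.span ℝ {x}).map F :=
      Submodule.mem_map_of_mem (Submodule.mem_span_singleton_self x)
    rw [hFm] at this
    simpa using this
  refine ⟨y, (F y)⁻¹ • LinearMap.toContinuousLinearMap F, ?_, ?_, ?_⟩
  · simpa using hy
  · simp [hFx]
  · simp [hF]

theorem uniq_aux [FiniteDimensional ℝ V] (hd : 3 ≤ finrank ℝ V) (hs : SymPerp V) {x : V}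
    (hx : ‖x‖ = 1) {f g : V →L[ℝ] ℝ} (hf : Supp f x) (hg : Supp g x) : f = g := by
  by_contra hne
  set k : V →L[ℝ] ℝ := f - g with hk
  have hk0 : k ≠ 0 := sub_ne_zero.2 hne
  have hkn : 0 < ‖k‖ := norm_pos_iff.2 hk0
  have hkx : k x = 0 := by
    rw [hk, ContinuousLinearMap.sub_apply, hf.2, hg.2, sub_self]
  obtain ⟨y, h, hky, hhx, hhy⟩ := uniq_dir hd k x
  -- the perturbation parameters
  set ε : ℝ := 1 / (8 * (‖y‖ + 1)) with hε
  have hε0 : 0 < ε := by rw [hε]; positivity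
  have hεy : ε * ‖y‖ ≤ 1 / 8 := by
    rw [hε, div_mul_eq_mul_div, one_mul, div_le_div_iff₀ (by positivity) (by norm_num)]
    nlinarith [norm_nonneg y]
  set η : ℝ := min (ε / (8 * (‖h‖ + 1))) (1 / 8) with hη
  have hη0 : 0 < η := by
    rw [hη]; exact lt_min (by positivity) (by norm_num)
  have hη1 : η * ‖h‖ ≤ ε / 8 := by
    have h1 : η ≤ ε / (8 * (‖h‖ + 1)) := min_le_left _ _
    calc η * ‖h‖ ≤ ε / (8 * (‖h‖ + 1)) * ‖h‖ := by gcongr
      _ ≤ ε / (8 * (‖h‖ + 1)) * (‖h‖ + 1) := by gcongr; linarith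
      _ = ε / 8 := by field_simp
  have hη2 : η ≤ 1 / 8 := min_le_right _ _
  obtain ⟨u, hu, hus⟩ := exists_smooth_near (x + ε • y) hη0
  have hhu : ε / 2 ≤ h u := by
    have h1 : |h (u - (x + ε • y))| ≤ ‖h‖ * ‖u - (x + ε • y)‖ := by
      have := h.le_opNorm (u - (x + ε • y))
      rwa [Real.norm_eq_abs] at this
    have h2 : ‖h‖ * ‖u - (x + ε • y)‖ ≤ ‖h‖ * η := by gcongr
    rw [map_sub, map_add, map_smul, hhx, hhy, smul_eq_mul] at h1
    have := (abs_le.1 h1).1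
    nlinarith
  have hhu0 : 0 < h u := by linarith
  have hku : |k u| ≤ ‖k‖ * η := by
    have h1 : |k (u - (x + ε • y))| ≤ ‖k‖ * ‖u - (x + ε • y)‖ := by
      have := k.le_opNorm (u - (x + ε • y))
      rwa [Real.norm_eq_abs] at this
    have h2 : ‖k‖ * ‖u - (x + ε • y)‖ ≤ ‖k‖ * η := by gcongr
    rw [map_sub, map_add, map_smul, hkx, hky, smul_eq_mul] at h1
    have h3 : k u - (0 + ε * 0) = k u := by ring
    rw [h3] at h1
    linarith
  set G : V →L[ℝ] ℝ := k - (k u / h u) • h with hG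
  have hGx : G x = 0 := by simp [hG, hkx, hhx]
  have hGu : G u = 0 := by simp [hG, hhu0.ne']
  set δ : ℝ := |k u| / h u * ‖h‖ with hδ
  have hδ1 : δ ≤ ‖k‖ / 4 := by
    have h1 : |k u| / h u ≤ ‖k‖ * η / (ε / 2) := by
      apply div_le_div₀ (by positivity) hku (by positivity) hhu
    calc δ ≤ ‖k‖ * η / (ε / 2) * ‖h‖ := by rw [hδ]; gcongr
      _ = ‖k‖ * (η * ‖h‖) / (ε / 2) := by ring
      _ ≤ ‖k‖ * (ε / 8) / (ε / 2) := by gcongr
      _ = ‖k‖ / 4 := by field_simp; ring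
  have hGk : ‖k - G‖ ≤ δ := by
    have : k - G = (k u / h u) • h := by rw [hG]; abel
    rw [this, norm_smul, Real.norm_eq_abs, abs_div, abs_of_pos hhu0]
  have hGn1 : ‖k‖ - δ ≤ ‖G‖ := by
    have := norm_sub_norm_le k G
    linarith
  have hGn : 0 < ‖G‖ := by linarith
  obtain ⟨v, hv, hGv⟩ := uniq_attain hGn
  have hkv : 0 < k v := by
    have h1 : |(k - G) v| ≤ ‖k - G‖ * ‖v‖ := by
      have := (k - G).le_opNorm v
      rwa [Real.norm_eq_abs] at this
    rw [hv, mul_one, ContinuousLinearMap.sub_apply] at h1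
    have := (abs_le.1 h1).1
    rw [hGv] at this
    linarith
  have hpv : Perp v x := uniq_perp hGn hv hGv hGx
  -- the two corrected vectors
  have key : ∀ φ : V →L[ℝ] ℝ, Supp φ x → ND u (v - (φ v) • x) = 0 := by
    intro φ hφ
    set w : V := v - (φ v) • x with hw
    have hφw : φ w = 0 := by
      rw [hw, map_sub, map_smul, hφ.2, hx, smul_eq_mul, mul_one, sub_self]
    have h1 : Perp w x := hs _ _ (hφ.perp hφw)
    have h2 : ‖w‖ ≤ 1 := by
      have := h1 (φ v)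
      rw [hw, sub_add_cancel, hv] at this
      exact this
    have h3 : 1 ≤ ‖w‖ := by
      have := hpv (-(φ v))
      rw [hv, neg_smul, ← sub_eq_add_neg] at this
      exact this
    have h4 : ‖w‖ = 1 := le_antisymm h2 h3
    have h5 : G w = ‖G‖ := by
      rw [hw, map_sub, map_smul, hGx, smul_zero, sub_zero, hGv]
    have h6 : Perp w u := uniq_perp hGn h4 h5 hGu
    exact nd_eq_zero_of_perp hus (hs _ _ h6)
  have h1 := key f hf
  have h2 := key g hg
  rw [map_sub, map_smul, smul_eq_mul] at h1 h2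
  have h3 : k v * ND u x = 0 := by
    rw [hk, ContinuousLinearMap.sub_apply]
    linarith
  have h4 : ND u x = 0 := (mul_eq_zero.1 h3).resolve_left hkv.ne'
  have h5 : ‖u‖ ≤ ‖u - x‖ := by
    have h6 := nd_le u (u - x)
    rw [map_sub, nd_self hus, h4, sub_zero] at h6
    exact h6
  have h6 : ‖u - x‖ ≤ 1 / 4 := by
    have h7 : u - x = (u - (x + ε • y)) + ε • y := by abel
    rw [h7]
    refine (norm_add_le _ _).trans ?_
    rw [norm_smul, Real.norm_eq_abs, abs_of_pos hε0]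
    linarith
  have h7 : ‖x‖ ≤ ‖u‖ + ‖u - x‖ := by
    have : x = u - (u - x) := by abel
    calc ‖x‖ = ‖u - (u - x)‖ := by rw [← this]
      _ ≤ ‖u‖ + ‖u - x‖ := norm_sub_le _ _
  rw [hx] at h7
  linarith

theorem supp_unique [FiniteDimensional ℝ V] (hd : 3 ≤ finrank ℝ V) (hs : SymPerp V) {x : V}
    (hx : x ≠ 0) {f g : V →L[ℝ] ℝ} (hf : Supp f x) (hg : Supp g x) : f = g := by
  have hx0 : 0 < ‖x‖ := norm_pos_iff.2 hx
  have hn : ‖‖x‖⁻¹ • x‖ = 1 := by
    rw [norm_smul, norm_inv, norm_norm, inv_mul_cancel₀ hx0.ne']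
  have hsc : ∀ φ : V →L[ℝ] ℝ, Supp φ x → Supp φ (‖x‖⁻¹ • x) := by
    intro φ hφ
    refine ⟨hφ.1, ?_⟩
    rw [hn, map_smul, hφ.2, smul_eq_mul, inv_mul_cancel₀ hx0.ne']
  exact uniq_aux hd hs hn (hsc f hf) (hsc g hg)

end TC
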